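import Pool.Agent.Helper5.WD.Stmts

/-! Row GMS: monochromatic sets. -/

set_option autoImplicit false

open Finset Pool.Agent.Helper8.UN Pool.Agent.Helper5.FV

namespace Pool.Agent.Helper5.WD

theorem gms_mf {α : Type} (p : α → Prop) (dp : DecidablePred p) (s : Finset α) (a : α) :
    a ∈ @Finset.filter α p dp s ↔ a ∈ s ∧ p a := Finset.mem_filter

/-- forgetting the colours on `U'` -/
def gms_r {n : ℕ} (U' : Finset (Fin n)) (f : Fin n → ℕ) : Fin n → ℕ :=
  fun v => if v ∈ U' then 0 else f v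

theorem gms_cc {n : ℕ} (E : Finset (Finset (Fin n))) (W U' : Finset (Fin n)) (k : ℕ)
    (f : Fin n → ℕ) (hf : f ∈ CC E W k) : gms_r U' f ∈ CC E (W \ U') k := by
  classical
  unfold CC at hf ⊢
  rw [gms_mf, Fintype.mem_piFinset] at hf ⊢
  obtain ⟨h1, h2⟩ := hf
  refine ⟨?_, ?_⟩
  · intro v
    have h3 := h1 v
    unfold gms_r
    by_cases hv : v ∈ U'
    · rw [if_pos hv, if_neg (fun h => (mem_sdiff.1 h).2 hv)]
      exact mem_singleton_self 0
    · rw [if_neg hv]
      by_cases hw : v ∈ W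
      · rw [if_pos (mem_sdiff.2 ⟨hw, hv⟩)]
        rw [if_pos hw] at h3
        exact h3
      · rw [if_neg (fun h => hw (mem_sdiff.1 h).1)]
        rw [if_neg hw] at h3
        exact h3
  · intro e he hsub
    obtain ⟨u, hu, v, hv, huv⟩ := h2 e he (hsub.trans sdiff_subset)
    refine ⟨u, hu, v, hv, ?_⟩
    unfold gms_r
    rw [if_neg (mem_sdiff.1 (hsub hu)).2, if_neg (mem_sdiff.1 (hsub hv)).2]
    exact huv

theorem gms_ss {n : ℕ} (E : Finset (Finset (Fin n))) (W U : Finset (Fin n)) (k : ℕ) (a : Fin n)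
    (ha : a ∈ U) (hU : U ⊆ W) (f : Fin n → ℕ) (hf : f ∈ SS E W k) (hc : ∀ u ∈ U, f u = f a) :
    gms_r (U.erase a) f ∈ SS E (W \ U.erase a) k := by
  classical
  unfold SS at hf ⊢
  rw [gms_mf] at hf ⊢
  refine ⟨gms_cc E W _ k f hf.1, ?_⟩
  intro i hi
  obtain ⟨v, hv, hvi⟩ := hf.2 i hi
  by_cases hvU : v ∈ U.erase a
  · refine ⟨a, mem_sdiff.2 ⟨hU ha, notMem_erase a U⟩, ?_⟩
    unfold gms_r
    rw [if_neg (notMem_erase a U), ← hc v (mem_of_mem_erase hvU)]
    exact hvi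
  · refine ⟨v, mem_sdiff.2 ⟨hv, hvU⟩, ?_⟩
    unfold gms_r
    rw [if_neg hvU]
    exact hvi

theorem gms_inj {n : ℕ} (U : Finset (Fin n)) (a : Fin n) (f g : Fin n → ℕ)
    (hf : ∀ u ∈ U, f u = f a) (hg : ∀ u ∈ U, g u = g a)
    (h : gms_r (U.erase a) f = gms_r (U.erase a) g) : f = g := by
  have h0 : ∀ v, v ∉ U.erase a → f v = g v := by
    intro v hv
    have h1 := congrFun h v
    unfold gms_r at h1
    rw [if_neg hv, if_neg hv] at h1
    exact h1
  funext v
  by_cases hv : v ∈ U.erase a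
  · rw [hf v (mem_of_mem_erase hv), hg v (mem_of_mem_erase hv)]
    exact h0 a (notMem_erase a U)
  · exact h0 v hv

theorem st_GMS (hF1 : ST_GF1) : ST_GMS := by
  classical
  intro n D k0 k E W T hT hGD hk hTW hne
  obtain ⟨a, ha⟩ := hne
  have e1 : (W \ T.erase a) ∪ T.erase a = W :=
    sdiff_union_of_subset ((erase_subset _ _).trans hTW)
  have e2 : (T.erase a).card = T.card - 1 := card_erase_of_mem ha
  have hconst : ∀ f : Fin n → ℕ, (∃ i, ∀ v ∈ T, f v = i) → ∀ u ∈ T, f u = f a := by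
    rintro f ⟨i, hi⟩ u hu
    rw [hi u hu, hi a ha]
  obtain ⟨h1, -, h3⟩ := hF1 n D k0 k E (W \ T.erase a) (T.erase a) hT hGD hk sdiff_disjoint
  rw [e1, e2] at h1 h3
  refine ⟨le_trans (Nat.mul_le_mul_left _ ?_) h1, le_trans (Nat.mul_le_mul_left _ ?_) h3⟩
  · unfold PP
    refine Finset.card_le_card_of_injOn (gms_r (T.erase a)) ?_ ?_
    · intro f hf
      rw [mem_coe, gms_mf] at hf
      exact mem_coe.2 (gms_cc E W _ k f hf.1)
    · intro f hf g hg hfg
      rw [mem_coe, gms_mf] at hf hg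
      exact gms_inj T a f g (hconst f hf.2) (hconst g hg.2) hfg
  · unfold AA
    refine Finset.card_le_card_of_injOn (gms_r (T.erase a)) ?_ ?_
    · intro f hf
      rw [mem_coe, gms_mf] at hf
      exact mem_coe.2 (gms_ss E W T k a ha hTW f hf.1 (hconst f hf.2))
    · intro f hf g hg hfg
      rw [mem_coe, gms_mf] at hf hg
      exact gms_inj T a f g (hconst f hf.2) (hconst g hg.2) hfg

end Pool.Agent.Helper5.WD
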